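import Pool.Agent.Helper13.ZL.Stmts

/-!
MP_8312c9_nt, zero-one law, module DIVC: the class of `f - c` has divisor `(c)`.
-/

set_option autoImplicit false

open scoped Classical

namespace Pool.Agent.Helper13.ZL

open Pool.Agent.Helper14.BSC
open IsDedekindDomain FractionalIdeal nonZeroDivisors

section val

variable {R : Type} [CommRing R] [IsDedekindDomain R] {K : Type} [Field K] [Algebra R K] [IsFractionRing R K]

theorem divc_val (v : HeightOneSpectrum R) {x : K} (hx : x ≠ 0) :
    v.valuation K x = WithZero.exp (-(count K v (spanSingleton R⁰ x))) := by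
  have base : ∀ r : R, r ≠ 0 → v.valuation K (algebraMap R K r) =
      WithZero.exp (-(count K v (spanSingleton R⁰ (algebraMap R K r)))) := by
    intro r hr
    have hs : Ideal.span {r} ≠ 0 := by
      rw [ne_eq, Ideal.zero_eq_bot, Ideal.span_singleton_eq_bot]
      exact hr
    rw [v.valuation_of_algebraMap, v.intValuation_if_neg hr, ← coeIdeal_span_singleton, count_coe K v hs]
  obtain ⟨a, b, hb, rfl⟩ := IsFractionRing.div_surjective (A := R) x
  have hb0 : b ≠ 0 := nonZeroDivisors.ne_zero hb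
  have hbK : algebraMap R K b ≠ 0 := by
    rw [ne_eq, IsFractionRing.to_map_eq_zero_iff]
    exact hb0
  have ha0 : a ≠ 0 := by
    rintro rfl
    apply hx
    rw [map_zero, zero_div]
  have haK : algebraMap R K a ≠ 0 := by
    rw [ne_eq, IsFractionRing.to_map_eq_zero_iff]
    exact ha0
  have hs : ∀ y : K, y ≠ 0 → spanSingleton R⁰ y ≠ 0 := fun y hy => spanSingleton_ne_zero_iff.2 hy
  have e1 : spanSingleton R⁰ (algebraMap R K a / algebraMap R K b) * spanSingleton R⁰ (algebraMap R K b) =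
      spanSingleton R⁰ (algebraMap R K a) := by
    rw [spanSingleton_mul_spanSingleton, div_mul_cancel₀ _ hbK]
  have e2 := congrArg (count K v) e1
  rw [count_mul K v (hs _ hx) (hs _ hbK)] at e2
  have e3 : v.valuation K (algebraMap R K a / algebraMap R K b) * v.valuation K (algebraMap R K b) =
      v.valuation K (algebraMap R K a) := by
    rw [← map_mul, div_mul_cancel₀ _ hbK]
  rw [base a ha0, base b hb0, ← e2, neg_add, WithZero.exp_add] at e3
  exact mul_right_cancel₀ WithZero.exp_ne_zero e3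

/-- an element whose counts are divisible by `n` -/
theorem divc_root {x : K} (hx : x ≠ 0) {n : ℕ} (hn : 0 < n)
    (h : ∀ v : HeightOneSpectrum R, ∃ t : K, v.valuation K (x * t ^ n) = 1) :
    ∃ J : FractionalIdeal R⁰ K, spanSingleton R⁰ x = J ^ n := by
  have hI : spanSingleton R⁰ x ≠ 0 := spanSingleton_ne_zero_iff.2 hx
  have hdvd : ∀ v : HeightOneSpectrum R, (n : ℤ) ∣ count K v (spanSingleton R⁰ x) := by
    intro v
    obtain ⟨t, ht⟩ := h v
    have ht0 : t ≠ 0 := by
      rintro rfl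
      rw [zero_pow hn.ne', mul_zero, map_zero] at ht
      exact zero_ne_one ht
    rw [divc_val v (mul_ne_zero hx (pow_ne_zero n ht0)), ← WithZero.exp_zero, WithZero.exp_inj, neg_eq_zero,
      ← spanSingleton_mul_spanSingleton, count_mul K v hI (spanSingleton_ne_zero_iff.2 (pow_ne_zero n ht0)),
      ← spanSingleton_pow, count_pow] at ht
    exact ⟨-(count K v (spanSingleton R⁰ t)), by linarith⟩
  have hfin : (Function.mulSupport fun v : HeightOneSpectrum R =>
      (v.asIdeal : FractionalIdeal R⁰ K) ^ (count K v (spanSingleton R⁰ x) / n)).Finite := by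
    refine (Filter.eventually_cofinite.1 (finite_factors (K := K) (spanSingleton R⁰ x))).subset ?_
    intro v hv
    show ¬ count K v (spanSingleton R⁰ x) = 0
    intro h0
    apply hv
    show (v.asIdeal : FractionalIdeal R⁰ K) ^ (count K v (spanSingleton R⁰ x) / n) = 1
    rw [h0, Int.zero_ediv, zpow_zero]
  refine ⟨∏ᶠ v : HeightOneSpectrum R, (v.asIdeal : FractionalIdeal R⁰ K) ^ (count K v (spanSingleton R⁰ x) / n), ?_⟩
  rw [finprod_pow hfin, ← finprod_heightOneSpectrum_factorization' K hI]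
  refine finprod_congr fun v => ?_
  rw [← zpow_natCast, ← zpow_mul]
  congr 1
  rw [finprod_heightOneSpectrum_factorization' K hI]
  exact (Int.ediv_mul_cancel (hdvd v)).symm

end val

theorem st_DIVC (hKUM : ST_KUM) (hBOT : ST_BOT) (hVALU : ST_VALU) (hADL : ST_ADL) (hVEMB : ST_VEMB)
    (hRK : ST_RK) : ST_DIVC := by
  intro k Ω _ _ _ _ _ D f hf c hc
  have place : ∀ v : Pl k, ∃ (p : ℕ) (_ : Fact p.Prime) (σ : k →+* ℂ_[p]) (P : Place D p σ), OverPl v σ := by
    intro v
    obtain ⟨p, hp, σ, E₀, h1, h2, h3⟩ := hVEMB k v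
    obtain ⟨P, _⟩ := hRK k Ω D p σ E₀ h2 h3
    exact ⟨p, hp, σ, P, h1⟩
  set x : LL D := f - algebraMap k (LL D) c with hx
  have hx0 : x ≠ 0 := by
    obtain ⟨M, hM⟩ := Ideal.exists_maximal (NumberField.RingOfIntegers k)
    have hM0 : M ≠ ⊥ := Ring.ne_bot_of_isMaximal_of_not_isField hM (NumberField.RingOfIntegers.not_isField k)
    obtain ⟨p, hp, σ, P, hσ⟩ := place ⟨M, hM.isPrime, hM0⟩
    obtain ⟨h, hφ⟩ := hf _ p σ P hσ
    intro h0
    have e : f = algebraMap k (LL D) c := sub_eq_zero.1 h0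
    obtain ⟨h', hb⟩ := P.base c
    have e2 : (⟨f, h⟩ : P.C) = ⟨_, h'⟩ := Subtype.ext e
    rw [e2, hb] at hφ
    exact hc ((map_eq_zero σ).1 hφ)
  refine hADL k Ω D x (spanSingleton _ c) (spanSingleton_ne_zero_iff.2 hc) ?_
  intro n hn
  obtain ⟨c', hc'0, g, hg0, hxg⟩ := hKUM k Ω D ∅ n hn x hx0
  obtain ⟨b, hb⟩ := hBOT k Ω (c' : Acl k Ω) c'.2
  have hinc : inc D ∅ c' = algebraMap k (LL D) b := by
    apply Subtype.ext
    rw [coe_inc, hb]
    rfl
  rw [hinc] at hxg
  have hb0 : b ≠ 0 := by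
    rintro rfl
    rw [map_zero, zero_mul] at hxg
    exact hx0 hxg
  refine ⟨b, hb0, g, hxg, ?_⟩
  have hnc : -c ≠ 0 := neg_ne_zero.2 hc
  -- values
  have hval : ∀ v : Pl k, ∃ t : k, v.valuation k (b / (-c) * t ^ n) = 1 := by
    intro v
    obtain ⟨p, hp, σ, P, hσ⟩ := place v
    obtain ⟨h, hφ⟩ := hf v p σ P hσ
    obtain ⟨h', hb'⟩ := P.base (-c)⁻¹
    -- the element `1 - f / c`
    set X : P.C := 1 + ⟨f, h⟩ * ⟨_, h'⟩ with hX
    have hφX : P.φ X = 1 := by
      rw [hX, map_add, map_mul, map_one, hφ, zero_mul, add_zero]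
    have hXe : (X : LL D) = algebraMap k (LL D) (b / (-c)) * g ^ n := by
      have e1 : (X : LL D) = 1 + f * algebraMap k (LL D) (-c)⁻¹ := by
        rw [hX]
        rfl
      have e2 : algebraMap k (LL D) (b / (-c)) * g ^ n = x * algebraMap k (LL D) (-c)⁻¹ := by
        rw [div_eq_mul_inv, map_mul, hxg]
        ring
      have e3 : algebraMap k (LL D) c * algebraMap k (LL D) (-c)⁻¹ = -1 := by
        rw [← map_mul, inv_neg, mul_neg, mul_inv_cancel₀ hc, map_neg, map_one]
      rw [e1, e2, hx]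
      linear_combination e3
    have hne : P.φ X ≠ 0 := by
      rw [hφX]
      exact one_ne_zero
    exact (hVALU k Ω D v p σ P hσ X hne).1 (by rw [hφX, norm_one]) n hn _ g hXe
  obtain ⟨J, hJ⟩ := divc_root (R := NumberField.RingOfIntegers k) (div_ne_zero hb0 hnc) hn hval
  refine ⟨J, ?_⟩
  rw [← hJ]
  have e : spanSingleton (nonZeroDivisors (NumberField.RingOfIntegers k)) (-c) =
      spanSingleton (nonZeroDivisors (NumberField.RingOfIntegers k)) c := by
    refine spanSingleton_eq_spanSingleton.2 ⟨-1, ?_⟩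
    rw [Units.smul_def, Units.val_neg, Units.val_one, neg_smul, one_smul, neg_neg]
  rw [← e, spanSingleton_mul_spanSingleton, mul_div_cancel₀ _ hnc]

end Pool.Agent.Helper13.ZL
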